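import Pool.Agent.N522.BSV.Schemes

/-!
# Beilinson–Soulé vanishing for all smooth projective complex varieties and the point
-/

open Pool.Agent.N522.BSV AlgebraicGeometry

/-- Let `𝒞` be a class of smooth complex varieties containing `Spec ℂ`, e.g. that of smooth
projective varieties. Q1 for `𝒞` is equivalent to `CH^n(Spec ℂ, 2n + 1)_ℚ = 0` for all `n ≥ 2`; it
implies the vanishing for all smooth complex varieties and all fields of characteristic zero.
Moreover, if `CH^n(Spec ℂ, 2n + 1)_ℚ = 0` for `2 ≤ n ≤ N`, then `CH^j(X, m)_ℚ = 0` for all smooth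
complex varieties `X` and `2j < m ≤ N + 3`. -/
theorem Pool.Agent.Results.MP_d72c81_ag.PointSuffices.result
    (T : SchemeTheory) (hT : SchemeFacts T) (𝒞 : Scheme.{0} → Prop)
    (h𝒞 : ∀ X, 𝒞 X → IsSmoothVariety X) (hpt : 𝒞 (Spec (CommRingCat.of ℂ))) :
    (Q1 T 𝒞 ↔ ∀ n : ℤ, 2 ≤ n → SchemeVanishes T (Spec (CommRingCat.of ℂ)) n (-1)) ∧
    (Q1 T 𝒞 → Q1 T IsSmoothVariety ∧
      ∀ (F : Type) [Field F] [CharZero F] (n i : ℤ), i < 0 → Vanishes T.toFieldTheory F n i) ∧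
    (∀ N : ℤ, (∀ n : ℤ, 2 ≤ n → n ≤ N → SchemeVanishes T (Spec (CommRingCat.of ℂ)) n (-1)) →
      ∀ X : Scheme.{0}, IsSmoothVariety X → ∀ j m : ℤ, 2 * j < m → m ≤ N + 3 →
        SchemeVanishes T X j (2 * j - m)) := by
  have h1 : Q1 T 𝒞 → ∀ n : ℤ, 2 ≤ n → SchemeVanishes T (Spec (CommRingCat.of ℂ)) n (-1) :=
    fun h n _ => h _ hpt n (-1) (by omega)
  have h2 : (∀ n : ℤ, 2 ≤ n → SchemeVanishes T (Spec (CommRingCat.of ℂ)) n (-1)) →
      Q1 T IsSmoothVariety := by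
    intro h X hX n i hi
    exact key hT (2 * n - i) (fun m hm _ => h m hm) X hX n i hi (by omega)
  refine ⟨⟨h1, fun h X hX => h2 h X (h𝒞 X hX)⟩, fun h => ⟨h2 (h1 h), fun F _ _ n i hi =>
    fields_of_point hT (h1 h) F n i hi⟩, ?_⟩
  intro N h X hX j m hm hN
  exact key hT N h X hX j (2 * j - m) (by omega) (by omega)
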